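import Pool.Agent.Helper71.CP.STEP

/-! CP, part M2: the partners in `T` of the elements of `A`. -/

set_option autoImplicit false

namespace Pool.Agent.Helper71.CP

open Pool.Agent.Helper20.CP

section

variable {X : Type} [Fintype X] [DecidableEq X]

/-- the elements of `A` with partner in `T`, after one step -/
theorem count_step {S A T : Finset X} (hAS : A ⊆ S) (hTS : T ⊆ S) (hAT : Disjoint A T) {h x : X}
    (hA : h ∈ A) (hx : x ∈ S.erase h) {σ : Equiv.Perm X}
    (hσ : σ ∈ invo ((S.erase h).erase x)) :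
    (A.filter fun y => (Equiv.swap h x * σ) y ∈ T).card =
      (if x ∈ T then 1 else 0) +
        (((A.erase h).erase x).filter fun y => σ y ∈ T.erase x).card := by
  have hS : h ∈ S := hAS hA
  obtain ⟨b0, b1, b2, b3⟩ := bwd hS hx hσ
  obtain ⟨i1, i2⟩ := mem_invo.1 hσ
  have hxh : x ≠ h := (Finset.mem_erase.1 hx).1
  have hhT : h ∉ T := fun h' => (Finset.disjoint_left.1 hAT) hA h'
  have b4 : (Equiv.swap h x * σ) x = h := by
    rw [Equiv.Perm.mul_apply, b3, Equiv.swap_apply_right]
  have b5 : ∀ y, y ≠ h → y ≠ x → (Equiv.swap h x * σ) y = σ y := by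
    intro y h1 h2
    rw [Equiv.Perm.mul_apply]
    refine swap_of_ne ?_ ?_
    · intro h3
      apply h1
      rw [← i1 y, h3, b2]
    · intro h3
      apply h2
      rw [← i1 y, h3, b3]
  have b6 : ∀ y, y ≠ x → σ y ≠ x := by
    intro y h2 h3
    apply h2
    rw [← i1 y, h3, b3]
  by_cases hxT : x ∈ T
  · rw [if_pos hxT]
    have e : (A.filter fun y => (Equiv.swap h x * σ) y ∈ T) =
        insert h (((A.erase h).erase x).filter fun y => σ y ∈ T.erase x) := by
      ext y
      simp only [Finset.mem_filter, Finset.mem_insert, Finset.mem_erase]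
      by_cases h1 : y = h
      · rw [h1, b1]
        simp [hA, hxT]
      · by_cases h2 : y = x
        · rw [h2]
          have : x ∉ A := fun h' => (Finset.disjoint_left.1 hAT) h' hxT
          simp [this, hxh]
        · rw [b5 y h1 h2]
          simp [h1, h2, b6 y h2]
    rw [e, Finset.card_insert_of_notMem (by simp), add_comm]
  · rw [if_neg hxT, zero_add]
    congr 1
    ext y
    simp only [Finset.mem_filter, Finset.mem_erase]
    by_cases h1 : y = h
    · rw [h1, b1]
      simp [hxT]
    · by_cases h2 : y = x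
      · rw [h2, b4]
        simp [hhT]
      · rw [b5 y h1 h2]
        simp [h1, h2, b6 y h2]

theorem m2_aux {p : ℝ} (hp0 : 0 ≤ p) (hp1 : p ≤ 1) {N : ℕ} {δ : ℝ} (hδ : 0 ≤ δ)
    (hδN : δ ≤ N) : ∀ (s : ℕ) (S A T : Finset X), S.card = s → s ≤ N → A ⊆ S → T ⊆ S →
    Disjoint A T → δ ≤ (T.card : ℝ) - A.card →
    ∑ σ ∈ invo S, (1 - p) ^ (A.filter fun x => σ x ∈ T).card ≤
      (invo S).card * (1 - p * δ / N) ^ ((A.card + 1) / 2) := by
  intro s
  induction s using Nat.strong_induction_on with
  | _ s ih =>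
    intro S A T hS hsN hAS hTS hAT hd
    rcases A.eq_empty_or_nonempty with rfl | ⟨h, hA⟩
    · simp
    have hhS : h ∈ S := hAS hA
    have hs1 : 1 ≤ s := by
      rw [← hS]
      exact Finset.card_pos.2 ⟨h, hhS⟩
    have hN0 : (0 : ℝ) < N := by
      exact_mod_cast lt_of_lt_of_le hs1 hsN
    set ρ : ℝ := 1 - p * δ / N with hρ
    have hq : p * δ / N ≤ 1 := by
      rw [div_le_one hN0]
      nlinarith
    have hρ0 : 0 ≤ ρ := by linarith
    have hρ1 : ρ ≤ 1 := by
      have : 0 ≤ p * δ / N := by positivity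
      linarith
    have hhT : h ∉ T := fun h' => (Finset.disjoint_left.1 hAT) hA h'
    have hm1 : 1 ≤ A.card := Finset.card_pos.2 ⟨h, hA⟩
    obtain ⟨e, he⟩ : ∃ e, (A.card + 1) / 2 = e + 1 := ⟨(A.card + 1) / 2 - 1, by omega⟩
    have key : ∀ x ∈ S.erase h, ∑ σ ∈ invo ((S.erase h).erase x),
        (1 - p) ^ (A.filter fun y => (Equiv.swap h x * σ) y ∈ T).card ≤
        (1 - p * (if x ∈ T then 1 else 0)) *
          ((invo ((S.erase h).erase x)).card * ρ ^ e) := by
      intro x hx
      have hc := card_erase2 hhS hx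
      have h1 : ∑ σ ∈ invo ((S.erase h).erase x),
          (1 - p) ^ (A.filter fun y => (Equiv.swap h x * σ) y ∈ T).card =
          (1 - p * (if x ∈ T then 1 else 0)) * ∑ σ ∈ invo ((S.erase h).erase x),
            (1 - p) ^ (((A.erase h).erase x).filter fun y => σ y ∈ T.erase x).card := by
        rw [Finset.mul_sum]
        refine Finset.sum_congr rfl fun σ hσ => ?_
        rw [count_step hAS hTS hAT hA hx hσ, pow_add]
        congr 1
        split_ifs <;> simp
      rw [h1]
      have hnn : 0 ≤ 1 - p * (if x ∈ T then (1 : ℝ) else 0) := by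
        split_ifs <;> linarith
      refine mul_le_mul_of_nonneg_left ?_ hnn
      have hTe : (T.erase x).card + (if x ∈ T then 1 else 0) = T.card := by
        split_ifs with h2
        · exact Finset.card_erase_add_one h2
        · rw [Finset.erase_eq_of_notMem h2, add_zero]
      have hAe : ((A.erase h).erase x).card + (if x ∈ A then 1 else 0) + 1 = A.card := by
        have h2 := Finset.card_erase_add_one hA
        have h3 : x ≠ h := (Finset.mem_erase.1 hx).1
        split_ifs with h4
        · have h5 := Finset.card_erase_add_one (Finset.mem_erase.2 ⟨h3, h4⟩)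
          omega
        · have h5 : x ∉ A.erase h := fun h6 => h4 (Finset.mem_of_mem_erase h6)
          rw [Finset.erase_eq_of_notMem h5, add_zero, h2]
      have hxTA : ¬ (x ∈ T ∧ x ∈ A) := fun h2 => (Finset.disjoint_left.1 hAT) h2.2 h2.1
      have hnat : T.card + ((A.erase h).erase x).card ≤ (T.erase x).card + A.card := by
        by_cases h2 : x ∈ T
        · have h3 : x ∉ A := fun h4 => hxTA ⟨h2, h4⟩
          rw [if_pos h2] at hTe
          rw [if_neg h3] at hAe
          omega
        · rw [if_neg h2] at hTe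
          split_ifs at hAe <;> omega
      have hreal : (T.card : ℝ) + ((A.erase h).erase x).card ≤ (T.erase x).card + A.card := by
        exact_mod_cast hnat
      have hA' : (A.erase h).erase x ⊆ (S.erase h).erase x :=
        Finset.erase_subset_erase _ (Finset.erase_subset_erase _ hAS)
      have hT' : T.erase x ⊆ (S.erase h).erase x := by
        refine Finset.erase_subset_erase _ fun y hy => Finset.mem_erase.2 ⟨?_, hTS hy⟩
        rintro rfl
        exact hhT hy
      have hD' : Disjoint ((A.erase h).erase x) (T.erase x) :=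
        hAT.mono ((Finset.erase_subset _ _).trans (Finset.erase_subset _ _))
          (Finset.erase_subset _ _)
      refine (ih (s - 2) (by omega) _ _ _ (by omega) (by omega) hA' hT' hD' (by linarith)).trans ?_
      refine mul_le_mul_of_nonneg_left ?_ (Nat.cast_nonneg _)
      refine pow_le_pow_of_le_one hρ0 hρ1 ?_
      split_ifs at hAe <;> omega
    rw [step S h hhS]
    refine (Finset.sum_le_sum key).trans ?_
    rcases (S.erase h).eq_empty_or_nonempty with hemp | ⟨x0, hx0⟩
    · rw [hemp, Finset.sum_empty]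
      positivity
    obtain ⟨c', hc'⟩ : ∃ c' : ℝ, c' = ((invo ((S.erase h).erase x0)).card : ℝ) := ⟨_, rfl⟩
    have h2 : ∀ x ∈ S.erase h, (1 - p * (if x ∈ T then 1 else 0)) *
          ((invo ((S.erase h).erase x)).card * ρ ^ e) =
        (1 - p * (if x ∈ T then 1 else 0)) * (c' * ρ ^ e) := by
      intro x hx
      have h3 := card_erase2 hhS hx
      have h4 := card_erase2 hhS hx0
      rw [hc', card_congr (S := (S.erase h).erase x) (S' := (S.erase h).erase x0) (by omega)]
    rw [Finset.sum_congr rfl h2, ← Finset.sum_mul]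
    have h3 : ∑ x ∈ S.erase h, (1 - p * (if x ∈ T then (1 : ℝ) else 0)) =
        ((s - 1 : ℕ) : ℝ) - p * T.card := by
      rw [Finset.sum_sub_distrib, ← Finset.mul_sum, Finset.sum_const, Finset.sum_ite_mem,
        Finset.sum_const, Finset.card_erase_of_mem hhS, hS]
      have h4 : S.erase h ∩ T = T := by
        refine Finset.inter_eq_right.2 fun y hy => Finset.mem_erase.2 ⟨?_, hTS hy⟩
        rintro rfl
        exact hhT hy
      rw [h4]
      simp
    have h5 : ((invo S).card : ℝ) = ((s - 1 : ℕ) : ℝ) * c' := by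
      rw [card_step' hhS hx0, hS, Nat.cast_mul, hc']
    rw [h3, h5, he, pow_succ]
    have hc0 : 0 ≤ c' * ρ ^ e := by
      rw [hc']
      positivity
    have h6 : ((s - 1 : ℕ) : ℝ) - p * T.card ≤ ((s - 1 : ℕ) : ℝ) * ρ := by
      rw [hρ, mul_sub, mul_one]
      have h7 : ((s - 1 : ℕ) : ℝ) ≤ N := by
        exact_mod_cast (Nat.sub_le _ _).trans hsN
      have h8 : ((s - 1 : ℕ) : ℝ) * (p * δ / N) ≤ p * δ := by
        rw [mul_div_assoc', div_le_iff₀ hN0, mul_comm]
        exact mul_le_mul_of_nonneg_left h7 (mul_nonneg hp0 hδ)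
      have h9 : p * δ ≤ p * T.card := by
        refine mul_le_mul_of_nonneg_left ?_ hp0
        have : (0 : ℝ) ≤ A.card := Nat.cast_nonneg _
        linarith
      linarith
    calc (((s - 1 : ℕ) : ℝ) - p * T.card) * (c' * ρ ^ e)
        ≤ (((s - 1 : ℕ) : ℝ) * ρ) * (c' * ρ ^ e) := mul_le_mul_of_nonneg_right h6 hc0
      _ = ((s - 1 : ℕ) : ℝ) * c' * (ρ ^ e * ρ) := by ring

end

theorem mainM2 : S_M2 := by
  intro X _ _ S A T hAS hTS hAT hle p hp0 hp1
  have hle' : (A.card : ℝ) ≤ T.card := by exact_mod_cast hle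
  have hTS' : (T.card : ℝ) ≤ S.card := by exact_mod_cast Finset.card_le_card hTS
  have h1 := m2_aux hp0 hp1 (N := S.card) (δ := (T.card : ℝ) - A.card) (by linarith)
    (by have : (0 : ℝ) ≤ A.card := Nat.cast_nonneg _
        linarith) S.card S A T rfl le_rfl hAS hTS hAT le_rfl
  refine h1.trans (mul_le_mul_of_nonneg_left ?_ (Nat.cast_nonneg _))
  rcases S.eq_empty_or_nonempty with rfl | hne
  · have hA : A = ∅ := Finset.subset_empty.1 hAS
    rw [hA]
    simp
  have hs : (0 : ℝ) < S.card := by
    exact_mod_cast Finset.card_pos.2 hne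
  set z : ℝ := p * ((T.card : ℝ) - A.card) / S.card with hz
  have hz0 : 0 ≤ z := by
    have : 0 ≤ (T.card : ℝ) - A.card := by linarith
    positivity
  have hz1 : z ≤ 1 := by
    rw [hz, div_le_one hs]
    have : (0 : ℝ) ≤ A.card := Nat.cast_nonneg _
    nlinarith
  calc (1 - z) ^ ((A.card + 1) / 2) ≤ (Real.exp (-z)) ^ ((A.card + 1) / 2) := by
        refine pow_le_pow_left₀ (by linarith) ?_ _
        have := Real.add_one_le_exp (-z)
        linarith
    _ = Real.exp (-(z * ((A.card + 1) / 2 : ℕ))) := by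
        rw [← Real.exp_nat_mul]
        congr 1
        ring
    _ ≤ Real.exp (-(p * A.card * (T.card - A.card) / (2 * S.card))) := by
        rw [Real.exp_le_exp, neg_le_neg_iff]
        have h2 : (A.card : ℝ) / 2 ≤ ((A.card + 1) / 2 : ℕ) := by
          have h3 : A.card ≤ 2 * ((A.card + 1) / 2) := by omega
          have h4 : (A.card : ℝ) ≤ 2 * ((A.card + 1) / 2 : ℕ) := by exact_mod_cast h3
          linarith
        calc p * A.card * ((T.card : ℝ) - A.card) / (2 * S.card) = z * ((A.card : ℝ) / 2) := by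
              rw [hz]
              field_simp
          _ ≤ z * ((A.card + 1) / 2 : ℕ) := mul_le_mul_of_nonneg_left h2 hz0

end Pool.Agent.Helper71.CP
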