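import Pool.Agent.Helper71.CP.M2

/-! CP, part M4: pairings which contain given pairs. -/

set_option autoImplicit false

namespace Pool.Agent.Helper71.CP

open Pool.Agent.Helper20.CP MeasureTheory
open scoped ENNReal

section

variable {X : Type} [Fintype X] [DecidableEq X]

open Classical in
theorem red {A T : Finset X} (q : ℝ) : ∀ (k : ℕ) (S : Finset X) (h g : Fin k → X), DJ h g →
    (∀ i, h i ∈ S ∧ g i ∈ S) → A ⊆ S → T ⊆ S →
    (∀ i, h i ∉ A ∧ h i ∉ T ∧ g i ∉ A ∧ g i ∉ T) →
    ∃ S' : Finset X, A ⊆ S' ∧ T ⊆ S' ∧ S'.card + 2 * k = S.card ∧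
      ∑ σ ∈ (invo S).filter (fun σ => ∀ i, σ (h i) = g i),
          q ^ (A.filter fun x => σ x ∈ T).card =
        ∑ σ ∈ invo S', q ^ (A.filter fun x => σ x ∈ T).card ∧
      ((invo S).card : ℝ) = (∏ r ∈ Finset.range k, ((S.card : ℝ) - 2 * r - 1)) *
        (invo S').card := by
  intro k
  induction k with
  | zero =>
    intro S h g _ _ hA hT _
    refine ⟨S, hA, hT, by omega, ?_, by simp⟩
    congr 1
    ext σ
    simp only [Finset.mem_filter, and_iff_left_iff_imp]
    intro _ i
    exact i.elim0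
  | succ k ih =>
    intro S h g hdj hS hA hT hn
    obtain ⟨d1, d2, d3⟩ := hdj
    have hh0 : h 0 ∈ S := (hS 0).1
    have hgh : g 0 ∈ S.erase (h 0) := Finset.mem_erase.2 ⟨(d3 0 0).symm, (hS 0).2⟩
    have hmem : ∀ i : Fin k, h i.succ ∈ (S.erase (h 0)).erase (g 0) ∧
        g i.succ ∈ (S.erase (h 0)).erase (g 0) := by
      intro i
      refine ⟨Finset.mem_erase.2 ⟨d3 _ _, Finset.mem_erase.2 ⟨fun e => ?_, (hS _).1⟩⟩,
        Finset.mem_erase.2 ⟨fun e => ?_, Finset.mem_erase.2 ⟨(d3 _ _).symm, (hS _).2⟩⟩⟩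
      · exact absurd (d1 e) (Fin.succ_ne_zero i)
      · exact absurd (d2 e) (Fin.succ_ne_zero i)
    have hA' : A ⊆ (S.erase (h 0)).erase (g 0) := by
      intro y hy
      refine Finset.mem_erase.2 ⟨fun e => (hn 0).2.2.1 (e ▸ hy),
        Finset.mem_erase.2 ⟨fun e => (hn 0).1 (e ▸ hy), hA hy⟩⟩
    have hT' : T ⊆ (S.erase (h 0)).erase (g 0) := by
      intro y hy
      refine Finset.mem_erase.2 ⟨fun e => (hn 0).2.2.2 (e ▸ hy),
        Finset.mem_erase.2 ⟨fun e => (hn 0).2.1 (e ▸ hy), hT hy⟩⟩
    obtain ⟨S', s1, s2, s3, s4, s5⟩ := ih ((S.erase (h 0)).erase (g 0)) (fun i => h i.succ)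
      (fun i => g i.succ) ⟨fun i j e => Fin.succ_injective _ (d1 e),
        fun i j e => Fin.succ_injective _ (d2 e), fun i j => d3 _ _⟩ hmem hA' hT'
      (fun i => hn _)
    have hcard := card_erase2 hh0 hgh
    refine ⟨S', s1, s2, by omega, ?_, ?_⟩
    · rw [← s4, Finset.sum_filter, step S (h 0) hh0, Finset.sum_eq_single (g 0)]
      · rw [Finset.sum_filter]
        refine Finset.sum_congr rfl fun σ hσ => ?_
        obtain ⟨b0, b1, b2, b3⟩ := bwd hh0 hgh hσ
        obtain ⟨i1, i2⟩ := mem_invo.1 hσ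
        have b5 : ∀ y, y ≠ h 0 → y ≠ g 0 → (Equiv.swap (h 0) (g 0) * σ) y = σ y := by
          intro y h1 h2
          rw [Equiv.Perm.mul_apply]
          refine swap_of_ne ?_ ?_
          · intro h3
            apply h1
            rw [← i1 y, h3, b2]
          · intro h3
            apply h2
            rw [← i1 y, h3, b3]
        have hcond : (∀ i, (Equiv.swap (h 0) (g 0) * σ) (h i) = g i) ↔
            ∀ i : Fin k, σ (h i.succ) = g i.succ := by
          constructor
          · intro hc i
            rw [← hc i.succ, b5]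
            · exact fun e => absurd (d1 e) (Fin.succ_ne_zero i)
            · exact d3 _ _
          · intro hc i
            refine Fin.cases ?_ (fun i => ?_) i
            · exact b1
            · rw [b5, hc]
              · exact fun e => absurd (d1 e) (Fin.succ_ne_zero i)
              · exact d3 _ _
        have hcnt : (A.filter fun x => (Equiv.swap (h 0) (g 0) * σ) x ∈ T) =
            A.filter fun x => σ x ∈ T := by
          refine Finset.filter_congr fun y hy => ?_
          rw [b5 y (fun e => (hn 0).1 (e ▸ hy)) (fun e => (hn 0).2.2.1 (e ▸ hy))]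
        simp only [hcond, hcnt]
      · intro x hx hxg
        refine Finset.sum_eq_zero fun σ hσ => ?_
        obtain ⟨b0, b1, b2, b3⟩ := bwd hh0 hx hσ
        rw [if_neg]
        intro hc
        exact hxg (by rw [← b1, hc 0])
      · intro hx
        exact absurd hgh hx
    · rw [card_step' hh0 hgh, Nat.cast_mul, s5, Finset.prod_range_succ']
      have hpos : 0 < S.card := Finset.card_pos.2 ⟨_, hh0⟩
      have e1 : ((S.card - 1 : ℕ) : ℝ) = (S.card : ℝ) - 1 := by
        rw [Nat.cast_sub (by omega)]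
        simp
      have e2 : ((((S.erase (h 0)).erase (g 0)).card : ℕ) : ℝ) = (S.card : ℝ) - 2 := by
        have : ((((S.erase (h 0)).erase (g 0)).card + 2 : ℕ) : ℝ) = S.card := by
          exact_mod_cast hcard
        push_cast at this
        linarith
      rw [e1, e2]
      have e3 : ∏ r ∈ Finset.range k, ((S.card : ℝ) - 2 - 2 * r - 1) =
          ∏ r ∈ Finset.range k, ((S.card : ℝ) - 2 * ((r + 1 : ℕ) : ℝ) - 1) := by
        refine Finset.prod_congr rfl fun r _ => ?_
        push_cast
        ring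
      rw [e3]
      push_cast
      ring

end

open Classical in
theorem mainM4 (hM3 : S_M3) : S_M4 := by
  intro X _ _ ρ _ Ch hCh p hp0 hp1 hp k h g hdj hk A T hAT hn hle
  obtain ⟨S', s1, s2, s3, s4, s5⟩ := red (A := A) (T := T) (1 - p) k Finset.univ h g hdj
    (fun i => ⟨Finset.mem_univ _, Finset.mem_univ _⟩) (Finset.subset_univ _)
    (Finset.subset_univ _) hn
  rw [Finset.card_univ] at s3 s5
  rw [invo_univ] at s4 s5
  have hP : 0 < ∏ r ∈ Finset.range k, ((Fintype.card X : ℝ) - 2 * r - 1) := by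
    refine Finset.prod_pos fun r hr => ?_
    have h1 : r < k := Finset.mem_range.1 hr
    have h2 : 2 * r + 1 < Fintype.card X := by omega
    have h3 : ((2 * r + 1 : ℕ) : ℝ) < Fintype.card X := by exact_mod_cast h2
    push_cast at h3
    linarith
  have hq : 0 ≤ 1 - p := by linarith
  have h1 : ∑ σ ∈ (pairings X).filter (fun σ => ∀ i, σ (h i) = g i),
        WM ρ {w | ∀ x ∈ A, σ x ∈ T → w s(x, σ x) ∉ Ch} ≤
      ∑ σ ∈ (pairings X).filter (fun σ => ∀ i, σ (h i) = g i),
        ENNReal.ofReal ((1 - p) ^ (A.filter fun x => σ x ∈ T).card) :=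
    Finset.sum_le_sum fun σ hσ => by
      have := hM3 X ρ Ch hCh p hp0 hp1 hp σ (Finset.mem_filter.1 hσ).1 A T hAT
      convert this using 4
  rw [← ENNReal.ofReal_sum_of_nonneg (fun σ _ => pow_nonneg hq _)] at h1
  refine h1.trans ?_
  rw [← ENNReal.ofReal_natCast, ← ENNReal.ofReal_mul (Nat.cast_nonneg _)]
  refine ENNReal.ofReal_le_ofReal ?_
  have h2 := mainM2 X S' A T s1 s2 hAT hle p hp0 hp1
  have h3 : ∑ σ ∈ (pairings X).filter (fun σ => ∀ i, σ (h i) = g i),
      (1 - p) ^ (A.filter fun x => σ x ∈ T).card =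
      ∑ σ ∈ invo S', (1 - p) ^ (A.filter fun x => σ x ∈ T).card := by
    convert s4 using 2
  have h3' : ∑ σ ∈ (pairings X).filter (fun σ => ∀ i, σ (h i) = g i),
      (1 - p) ^ (A.filter fun x => σ x ∈ T).card ≤
      (invo S').card * Real.exp (-(p * A.card * (T.card - A.card) / (2 * S'.card))) := by
    rw [h3]
    convert h2 using 2
  refine h3'.trans ?_
  rw [s5]
  have hS' : (0 : ℝ) < S'.card := by
    have : 0 < S'.card := by omega
    exact_mod_cast this
  have hSX : (S'.card : ℝ) ≤ Fintype.card X := by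
    exact_mod_cast (by omega : S'.card ≤ Fintype.card X)
  have hle' : (A.card : ℝ) ≤ T.card := by exact_mod_cast hle
  have h4 : Real.exp (-(p * A.card * (T.card - A.card) / (2 * S'.card))) ≤
      Real.exp (-(p * A.card * (T.card - A.card) / (2 * Fintype.card X))) := by
    rw [Real.exp_le_exp, neg_le_neg_iff]
    refine div_le_div_of_nonneg_left ?_ (by positivity) (by linarith)
    have : 0 ≤ (T.card : ℝ) - A.card := by linarith
    positivity
  calc ((invo S').card : ℝ) * Real.exp (-(p * A.card * (T.card - A.card) / (2 * S'.card)))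
      ≤ ((invo S').card : ℝ) * Real.exp (-(p * A.card * (T.card - A.card) /
          (2 * Fintype.card X))) := mul_le_mul_of_nonneg_left h4 (Nat.cast_nonneg _)
    _ = _ := by
      field_simp

end Pool.Agent.Helper71.CP
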