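import Pool.Agent.Helper20.CP.Spec

/-! CP, parts STEP and CARD: sums over pairings. -/

set_option autoImplicit false

namespace Pool.Agent.Helper71.CP

open Pool.Agent.Helper20.CP

section

variable {X : Type} [Fintype X]

theorem mem_invo {S : Finset X} {σ : Equiv.Perm X} :
    σ ∈ invo S ↔ (∀ x, σ (σ x) = x) ∧ ∀ x, σ x ≠ x ↔ x ∈ S := by
  classical
  simp [invo]

variable [DecidableEq X]

theorem swap_of_ne {h x y : X} (h1 : y ≠ h) (h2 : y ≠ x) : Equiv.swap h x y = y :=
  Equiv.swap_apply_of_ne_of_ne h1 h2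

theorem fwd {S : Finset X} {h : X} (hS : h ∈ S) {σ : Equiv.Perm X} (hσ : σ ∈ invo S) :
    σ h ∈ S.erase h ∧ Equiv.swap h (σ h) * σ ∈ invo ((S.erase h).erase (σ h)) := by
  obtain ⟨h1, h2⟩ := mem_invo.1 hσ
  have hx : σ h ≠ h := (h2 h).2 hS
  have hxS : σ h ∈ S := by
    rw [← h2, h1]
    exact hx.symm
  refine ⟨Finset.mem_erase.2 ⟨hx, hxS⟩, mem_invo.2 ?_⟩
  have e1 : Equiv.swap h (σ h) (σ h) = h := Equiv.swap_apply_right _ _
  have e2 : Equiv.swap h (σ h) (σ (σ h)) = σ h := by rw [h1, Equiv.swap_apply_left]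
  have e3 : ∀ y, y ≠ h → y ≠ σ h → Equiv.swap h (σ h) (σ y) = σ y := by
    intro y hy1 hy2
    refine swap_of_ne ?_ ?_
    · intro h3
      apply hy2
      rw [← h1 y, h3]
    · intro h3
      exact hy1 (σ.injective h3)
  have e4 : ∀ y, y ≠ h → y ≠ σ h → σ y ≠ h ∧ σ y ≠ σ h := by
    intro y hy1 hy2
    refine ⟨?_, fun h3 => hy1 (σ.injective h3)⟩
    intro h3
    apply hy2
    rw [← h1 y, h3]
  constructor
  · intro y
    simp only [Equiv.Perm.mul_apply]
    by_cases hy1 : y = h
    · rw [hy1, e1, e1]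
    by_cases hy2 : y = σ h
    · rw [hy2, e2, e2]
    rw [e3 y hy1 hy2, e3 (σ y) (e4 y hy1 hy2).1 (e4 y hy1 hy2).2, h1]
  · intro y
    simp only [Equiv.Perm.mul_apply, Finset.mem_erase]
    by_cases hy1 : y = h
    · rw [hy1, e1]
      simp
    by_cases hy2 : y = σ h
    · rw [hy2, e2]
      simp
    rw [e3 y hy1 hy2, h2 y]
    simp [hy1, hy2]

theorem bwd {S : Finset X} {h x : X} (hS : h ∈ S) (hx : x ∈ S.erase h) {σ : Equiv.Perm X}
    (hσ : σ ∈ invo ((S.erase h).erase x)) :
    Equiv.swap h x * σ ∈ invo S ∧ (Equiv.swap h x * σ) h = x ∧ σ h = h ∧ σ x = x := by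
  obtain ⟨h1, h2⟩ := mem_invo.1 hσ
  obtain ⟨hxh, hxS⟩ := Finset.mem_erase.1 hx
  have f1 : σ h = h := by
    by_contra h3
    have := (h2 h).1 h3
    simp at this
  have f2 : σ x = x := by
    by_contra h3
    have := (h2 x).1 h3
    simp at this
  have e0 : ∀ y, y ≠ h → y ≠ x → σ y ≠ h ∧ σ y ≠ x := by
    intro y hy1 hy2
    constructor
    · intro h3
      apply hy1
      rw [← h1 y, h3, f1]
    · intro h3
      apply hy2
      rw [← h1 y, h3, f2]
  have e3 : ∀ y, y ≠ h → y ≠ x → Equiv.swap h x (σ y) = σ y := fun y hy1 hy2 =>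
    swap_of_ne (e0 y hy1 hy2).1 (e0 y hy1 hy2).2
  have g1 : (Equiv.swap h x * σ) h = x := by
    rw [Equiv.Perm.mul_apply, f1, Equiv.swap_apply_left]
  have g2 : (Equiv.swap h x * σ) x = h := by
    rw [Equiv.Perm.mul_apply, f2, Equiv.swap_apply_right]
  refine ⟨mem_invo.2 ⟨?_, ?_⟩, g1, f1, f2⟩
  · intro y
    by_cases hy1 : y = h
    · rw [hy1, g1, g2]
    by_cases hy2 : y = x
    · rw [hy2, g2, g1]
    have g3 : (Equiv.swap h x * σ) y = σ y := by
      rw [Equiv.Perm.mul_apply, e3 y hy1 hy2]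
    have g4 : (Equiv.swap h x * σ) (σ y) = σ (σ y) := by
      rw [Equiv.Perm.mul_apply, e3 _ (e0 y hy1 hy2).1 (e0 y hy1 hy2).2]
    rw [g3, g4, h1]
  · intro y
    by_cases hy1 : y = h
    · rw [hy1, g1]
      exact ⟨fun _ => hS, fun _ => hxh⟩
    by_cases hy2 : y = x
    · rw [hy2, g2]
      exact ⟨fun _ => hxS, fun _ => hxh.symm⟩
    rw [Equiv.Perm.mul_apply, e3 y hy1 hy2, h2 y]
    simp [hy1, hy2]

theorem step (S : Finset X) (h : X) (hS : h ∈ S) {M : Type} [AddCommMonoid M]
    (F : Equiv.Perm X → M) :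
    ∑ σ ∈ invo S, F σ =
      ∑ x ∈ S.erase h, ∑ σ ∈ invo ((S.erase h).erase x), F (Equiv.swap h x * σ) := by
  rw [Finset.sum_sigma']
  refine Finset.sum_bij' (fun σ _ => ⟨σ h, Equiv.swap h (σ h) * σ⟩)
    (fun p _ => Equiv.swap h p.1 * p.2) ?_ ?_ ?_ ?_ ?_
  · intro σ hσ
    rw [Finset.mem_sigma]
    exact fwd hS hσ
  · rintro ⟨x, σ⟩ hp
    rw [Finset.mem_sigma] at hp
    exact (bwd hS hp.1 hp.2).1
  · intro σ hσ
    simp only
    rw [← mul_assoc, Equiv.swap_mul_self, one_mul]
  · rintro ⟨x, σ⟩ hp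
    rw [Finset.mem_sigma] at hp
    have h1 := (bwd hS hp.1 hp.2).2.1
    simp only at h1 ⊢
    rw [h1, ← mul_assoc, Equiv.swap_mul_self, one_mul]
  · intro σ hσ
    simp only
    rw [← mul_assoc, Equiv.swap_mul_self, one_mul]

end

theorem main : S_STEP := by
  intro X _ _ S h hS M _ F
  exact step S h hS F

section

variable {X : Type} [Fintype X] [DecidableEq X]

theorem invo_empty : invo (∅ : Finset X) = {1} := by
  ext σ
  rw [mem_invo, Finset.mem_singleton]
  constructor
  · rintro ⟨-, h2⟩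
    ext x
    by_contra h3
    exact absurd ((h2 x).1 h3) (Finset.notMem_empty x)
  · rintro rfl
    simp

theorem card_step (S : Finset X) (h : X) (hS : h ∈ S) :
    (invo S).card = ∑ x ∈ S.erase h, (invo ((S.erase h).erase x)).card := by
  have := step S h hS (fun _ => (1 : ℕ))
  simp only [Finset.sum_const, smul_eq_mul, mul_one] at this
  exact this

theorem card_erase2 {S : Finset X} {h x : X} (hS : h ∈ S) (hx : x ∈ S.erase h) :
    ((S.erase h).erase x).card + 2 = S.card := by
  have h1 := Finset.card_erase_add_one hS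
  have h2 := Finset.card_erase_add_one hx
  omega

theorem card_invo : ∀ (N : ℕ) (S : Finset X), S.card = N →
    (Even N → (invo S).card = Nat.doubleFactorial (N - 1)) ∧ (¬ Even N → (invo S).card = 0) := by
  intro N
  induction N using Nat.strong_induction_on with
  | _ N ih =>
    intro S hS
    rcases S.eq_empty_or_nonempty with rfl | ⟨h, hh⟩
    · rw [Finset.card_empty] at hS
      subst hS
      rw [invo_empty, Finset.card_singleton]
      simp
    · have hpos : 0 < S.card := Finset.card_pos.2 ⟨h, hh⟩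
      have hc : ∀ x ∈ S.erase h, ((S.erase h).erase x).card = N - 2 ∧ 2 ≤ N := by
        intro x hx
        have := card_erase2 hh hx
        omega
      have he1 : (S.erase h).card = N - 1 := by
        rw [Finset.card_erase_of_mem hh, hS]
      rw [card_step S h hh]
      constructor
      · intro hN
        have hN2 : 2 ≤ N := by
          rcases hN with ⟨r, hr⟩
          omega
        have hE : Even (N - 2) := by
          rcases hN with ⟨r, hr⟩
          exact ⟨r - 1, by omega⟩
        rw [Finset.sum_congr rfl fun x hx => (ih (N - 2) (by omega) _ (hc x hx).1).1 hE,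
          Finset.sum_const, he1, smul_eq_mul]
        obtain ⟨r, rfl⟩ : ∃ r, N = r + 2 := ⟨N - 2, by omega⟩
        rcases r with _ | r
        · rfl
        · have e1 : r + 1 + 2 - 1 = r + 2 := by omega
          have e2 : r + 1 + 2 - 2 - 1 = r := by omega
          rw [e1, e2, Nat.doubleFactorial_add_two]
      · intro hN
        refine Finset.sum_eq_zero fun x hx => ?_
        obtain ⟨h3, h4⟩ := hc x hx
        refine (ih (N - 2) (by omega) _ h3).2 ?_
        rintro ⟨r, hr⟩
        exact hN ⟨r + 1, by omega⟩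

theorem invo_univ : invo (Finset.univ : Finset X) = pairings X := by
  ext σ
  rw [mem_invo, pairings]
  simp

theorem card_pos {S : Finset X} (h : Even S.card) : 0 < (invo S).card := by
  rw [(card_invo _ S rfl).1 h]
  exact Nat.doubleFactorial_pos _

/-- the number of pairings only depends on the number of points -/
theorem card_congr {S S' : Finset X} (h : S.card = S'.card) : (invo S).card = (invo S').card := by
  by_cases hE : Even S.card
  · rw [(card_invo _ S rfl).1 hE, (card_invo _ S' rfl).1 (h ▸ hE), h]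
  · rw [(card_invo _ S rfl).2 hE, (card_invo _ S' rfl).2 (h ▸ hE)]

/-- one step -/
theorem card_step' {S : Finset X} {h x : X} (hS : h ∈ S) (hx : x ∈ S.erase h) :
    (invo S).card = (S.card - 1) * (invo ((S.erase h).erase x)).card := by
  rw [card_step S h hS, Finset.sum_congr rfl fun y hy => card_congr
    (S' := (S.erase h).erase x) (by
      have h1 := card_erase2 hS hx
      have h2 := card_erase2 hS hy
      omega), Finset.sum_const, Finset.card_erase_of_mem hS, smul_eq_mul]

end

theorem mainCARD : S_CARD := by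
  intro X _ _ S
  exact ⟨(card_invo _ S rfl).1, (card_invo _ S rfl).2, invo_univ⟩

end Pool.Agent.Helper71.CP
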